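import Pool.Agent.W811.LW.Stm

/-! LW-ABS: dichotomy for one family of integer vectors (project LW, MP_e56372_nt). -/

set_option autoImplicit false
open Finset

namespace Pool.Agent.W283.LW
open Pool.Agent.W811.LW

theorem prim (v : V3) (hv : v ≠ (0, 0, 0)) : ∃ (g : ℤ) (u : V3), g ≠ 0 ∧ v = smul3 g u ∧
    ∃ x y z : ℤ, x * u.1 + y * u.2.1 + z * u.2.2 = 1 := by
  obtain ⟨p, q, r⟩ := v
  have h1 := Int.gcd_eq_gcd_ab q r
  have hq1 : ((Int.gcd q r : ℕ) : ℤ) ∣ q := Int.gcd_dvd_left ..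
  have hr1 : ((Int.gcd q r : ℕ) : ℤ) ∣ r := Int.gcd_dvd_right ..
  generalize ((Int.gcd q r : ℕ) : ℤ) = g1 at h1 hq1 hr1
  have h2 := Int.gcd_eq_gcd_ab p g1
  have hp2 : ((Int.gcd p g1 : ℕ) : ℤ) ∣ p := Int.gcd_dvd_left ..
  have hg2 : ((Int.gcd p g1 : ℕ) : ℤ) ∣ g1 := Int.gcd_dvd_right ..
  generalize ((Int.gcd p g1 : ℕ) : ℤ) = g at h2 hp2 hg2
  have hq2 : g ∣ q := hg2.trans hq1
  have hr2 : g ∣ r := hg2.trans hr1
  generalize Int.gcdA p g1 = A at h2
  generalize Int.gcdB p g1 = B at h2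
  generalize Int.gcdA q r = A' at h1
  generalize Int.gcdB q r = B' at h1
  obtain ⟨p', rfl⟩ := hp2
  obtain ⟨q', rfl⟩ := hq2
  obtain ⟨r', rfl⟩ := hr2
  have hg0 : g ≠ 0 := by
    intro h0
    apply hv
    simp [h0]
  refine ⟨g, (p', q', r'), hg0, rfl, A, B * A', B * B', ?_⟩
  apply mul_left_cancel₀ hg0
  show g * (A * p' + B * A' * q' + B * B' * r') = g * 1
  rw [h1] at h2
  linear_combination -h2

theorem mult (v u : V3) (x y z : ℤ) (hx : x * u.1 + y * u.2.1 + z * u.2.2 = 1)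
    (hc : cr v u = (0, 0, 0)) : v = smul3 (x * v.1 + y * v.2.1 + z * v.2.2) u := by
  obtain ⟨p, q, r⟩ := v
  obtain ⟨p', q', r'⟩ := u
  simp only [cr, Prod.mk.injEq] at hc
  obtain ⟨h1, h2, h3⟩ := hc
  simp only at hx
  simp only [smul3, Prod.mk.injEq]
  refine ⟨?_, ?_, ?_⟩
  · linear_combination (-p) * hx + y * h3 - z * h2
  · linear_combination (-q) * hx - x * h3 + z * h1
  · linear_combination (-r) * hx + x * h2 - y * h1

theorem NN_nonneg (a b : V3 → ℝ) (v : V3) : 0 ≤ NN a b v := le_max_of_le_left (abs_nonneg _)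

theorem inN_le (S : Set V3) (a b : V3 → ℝ) {v : V3} (hv : v ∈ S) : inN S a b ≤ NN a b v :=
  csInf_le ⟨0, by rintro _ ⟨w, _, rfl⟩; exact NN_nonneg a b w⟩ ⟨v, hv, rfl⟩

theorem le_inN (S : Set V3) (hS : S.Nonempty) (a b : V3 → ℝ) (c : ℝ)
    (h : ∀ v ∈ S, c ≤ NN a b v) : c ≤ inN S a b :=
  le_csInf (hS.image _) (by rintro _ ⟨w, hw, rfl⟩; exact h w hw)

theorem rs_anti {x y : ℝ} (hx : 0 < x) (hxy : x ≤ y) : rs y ≤ rs x := by
  unfold rs
  exact inv_anti₀ (Real.sqrt_pos.2 hx) (Real.sqrt_le_sqrt hxy)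

theorem NN_smul (a b : V3 → ℝ) (ha : ∀ (k : ℤ) (u : V3), a (smul3 k u) = k * a u)
    (hb : ∀ (k : ℤ) (u : V3), b (smul3 k u) = k * b u) (k : ℤ) (u : V3) :
    NN a b (smul3 k u) = |(k : ℝ)| * NN a b u := by
  unfold NN
  rw [ha, hb, abs_mul, abs_mul, mul_max_of_nonneg _ _ (abs_nonneg _)]

theorem NN_le_smul (a b : V3 → ℝ) (ha : ∀ (k : ℤ) (u : V3), a (smul3 k u) = k * a u)
    (hb : ∀ (k : ℤ) (u : V3), b (smul3 k u) = k * b u) (k : ℤ) (hk : k ≠ 0) (u : V3) :
    NN a b u ≤ NN a b (smul3 k u) := by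
  rw [NN_smul a b ha hb]
  have h1 : (1 : ℝ) ≤ |(k : ℝ)| := by
    have : (1 : ℤ) ≤ |k| := Int.one_le_abs hk
    exact_mod_cast this
  have := NN_nonneg a b u
  nlinarith

theorem abs_ (h : AVL) : ABS := by
  intro D P R S a b hD hP hR hPR ha hb hS hne hcl hy
  have hD1 : (2 : ℝ) ≤ (D : ℝ) := by exact_mod_cast hD
  have hD2 : (1 : ℝ) ≤ (D : ℝ) ^ 2 := by nlinarith
  have hRD : R ≤ (D : ℝ) ^ 2 := by rw [← hPR]; nlinarith
  have hPD : P ≤ (D : ℝ) ^ 2 := by rw [← hPR]; nlinarith
  have hP0 : 0 < P := by linarith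
  have hR0 : 0 < R := by linarith
  have hθ : ∀ d : ℕ, d < D ^ 2 → 0 ≤ (d : ℝ) / (D : ℝ) ^ 2 ∧ (d : ℝ) / (D : ℝ) ^ 2 ≤ 1 := by
    intro d hd
    have hd' : (d : ℝ) ≤ (D : ℝ) ^ 2 := by exact_mod_cast hd.le
    exact ⟨by positivity, by rw [div_le_one (by linarith)]; exact hd'⟩
  have hA : ∀ d : ℕ, d < D ^ 2 → ∀ v : V3, NN a b v ≤ 2 * (D : ℝ) ^ 2 *
      NN (fun v => P * (a v + (d : ℝ) / (D : ℝ) ^ 2 * b v)) (fun v => b v / R) v := by
    intro d hd v
    obtain ⟨h0, h1⟩ := hθ d hd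
    generalize (d : ℝ) / (D : ℝ) ^ 2 = θ at h0 h1
    have hN : |P * (a v + θ * b v)| ≤
        NN (fun v => P * (a v + θ * b v)) (fun v => b v / R) v := le_max_left _ _
    have hN' : |b v / R| ≤
        NN (fun v => P * (a v + θ * b v)) (fun v => b v / R) v := le_max_right _ _
    generalize NN (fun v => P * (a v + θ * b v)) (fun v => b v / R) v = N at hN hN'
    have hN0 : 0 ≤ N := le_trans (abs_nonneg _) hN
    have hb1 : |b v| ≤ (D : ℝ) ^ 2 * N := by
      rw [abs_div, abs_of_pos hR0, div_le_iff₀ hR0] at hN'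
      calc |b v| ≤ N * R := hN'
        _ ≤ N * (D : ℝ) ^ 2 := mul_le_mul_of_nonneg_left hRD hN0
        _ = (D : ℝ) ^ 2 * N := mul_comm _ _
    have ha1 : |a v + θ * b v| ≤ N := by
      rw [abs_mul, abs_of_pos hP0] at hN
      have := abs_nonneg (a v + θ * b v)
      nlinarith
    have ha2 : |a v| ≤ |a v + θ * b v| + |b v| := by
      have e1 : |a v| ≤ |a v + θ * b v| + |θ * b v| := by
        have := abs_sub (a v + θ * b v) (θ * b v)
        simpa using this
      have e2 : |θ * b v| ≤ |b v| := by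
        rw [abs_mul, abs_of_nonneg h0]
        have := abs_nonneg (b v)
        nlinarith
      linarith
    unfold NN
    apply max_le
    · nlinarith
    · nlinarith
  have hB : ∀ d : ℕ, d < D ^ 2 → ∀ v : V3,
      NN (fun v => P * (a v + (d : ℝ) / (D : ℝ) ^ 2 * b v)) (fun v => b v / R) v ≤
      2 * (D : ℝ) ^ 2 * NN a b v := by
    intro d hd v
    obtain ⟨h0, h1⟩ := hθ d hd
    generalize (d : ℝ) / (D : ℝ) ^ 2 = θ at h0 h1
    have hN : |a v| ≤ NN a b v := le_max_left _ _
    have hN' : |b v| ≤ NN a b v := le_max_right _ _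
    generalize NN a b v = N at hN hN'
    have hN0 : 0 ≤ N := le_trans (abs_nonneg _) hN
    unfold NN
    apply max_le
    · have e1 : |a v + θ * b v| ≤ |a v| + |b v| := by
        refine (abs_add_le _ _).trans ?_
        have e2 : |θ * b v| ≤ |b v| := by
          rw [abs_mul, abs_of_nonneg h0]
          have := abs_nonneg (b v)
          nlinarith
        linarith
      show |P * (a v + θ * b v)| ≤ _
      rw [abs_mul, abs_of_pos hP0]
      calc P * |a v + θ * b v| ≤ (D : ℝ) ^ 2 * (2 * N) := by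
            apply mul_le_mul hPD (by linarith) (abs_nonneg _) (by positivity)
        _ = _ := by ring
    · show |b v / R| ≤ _
      rw [abs_div, abs_of_pos hR0, div_le_iff₀ hR0]
      have : N ≤ 2 * (D : ℝ) ^ 2 * N * R := by
        have e3 : (1 : ℝ) ≤ 2 * (D : ℝ) ^ 2 * R := by nlinarith
        nlinarith
      linarith
  have hlow : ∀ d : ℕ, d < D ^ 2 → inN S a b / (2 * (D : ℝ) ^ 2) ≤
      inN S (fun v => P * (a v + (d : ℝ) / (D : ℝ) ^ 2 * b v)) (fun v => b v / R) := by
    intro d hd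
    apply le_inN S hS
    intro v hv
    rw [div_le_iff₀ (by positivity)]
    have e1 := hA d hd v
    have e2 := inN_le S a b hv
    linarith
  refine ⟨fun d hd => ⟨lt_of_lt_of_le (by positivity) (hlow d hd), ?_⟩, ?_⟩
  · have e1 := hlow d hd
    rw [div_le_iff₀ (by positivity)] at e1
    linarith
  · by_contra hcon
    push Not at hcon
    obtain ⟨hc1, hc2⟩ := hcon
    -- a short vector
    obtain ⟨_, ⟨v1, hv1, rfl⟩, hv1'⟩ := exists_lt_of_csInf_lt (hS.image (NN a b))
      (show sInf (NN a b '' S) < 2 * inN S a b by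
        have : sInf (NN a b '' S) = inN S a b := rfl
        rw [this]; linarith)
    obtain ⟨g, u, hg, hvu, x, y, z, hxyz⟩ := prim v1 (hne v1 hv1)
    have huS : u ∈ S := hcl g u (hvu ▸ hv1)
    have hNu : NN a b u < 2 * inN S a b := by
      have := NN_le_smul a b ha hb g hg u
      rw [← hvu] at this
      linarith
    have hyu : inN S a b ≤ NN a b u := inN_le S a b huS
    have hD4 : (1 : ℝ) ≤ (D : ℝ) ^ 4 := by nlinarith
    have hub : NN a b u ≤ 8 * (D : ℝ) ^ 4 * inN S a b := by nlinarith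
    -- all the infima are attained at u
    have hinf : ∀ d : ℕ, d < D ^ 2 →
        NN (fun v => P * (a v + (d : ℝ) / (D : ℝ) ^ 2 * b v)) (fun v => b v / R) u ≤
        inN S (fun v => P * (a v + (d : ℝ) / (D : ℝ) ^ 2 * b v)) (fun v => b v / R) := by
      intro d hd
      apply le_inN S hS
      intro v hv
      by_cases hvN : NN a b v ≤ 8 * (D : ℝ) ^ 4 * inN S a b
      · have hcr : cr v u = (0, 0, 0) := by
          by_contra hne'
          exact absurd (hc2 v hv u huS hne' hvN) (not_lt.2 hub)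
        have hvk := mult v u x y z hxyz hcr
        generalize x * v.1 + y * v.2.1 + z * v.2.2 = k at hvk
        have hk : k ≠ 0 := by
          rintro rfl
          apply hne v hv
          rw [hvk]
          simp [smul3]
        rw [hvk]
        apply NN_le_smul _ _ _ _ k hk u
        · intro k u
          rw [ha, hb]; ring
        · intro k u
          rw [hb]; ring
      · push Not at hvN
        have e1 := hA d hd v
        have e2 := hB d hd u
        have e3 : 2 * (D : ℝ) ^ 2 * NN a b u < 4 * (D : ℝ) ^ 2 * inN S a b := by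
          have : 0 < (D : ℝ) ^ 2 := by positivity
          nlinarith
        have e4 : (D : ℝ) ^ 2 * (4 * (D : ℝ) ^ 2 * inN S a b) ≤ (D : ℝ) ^ 2 *
          NN (fun v => P * (a v + (d : ℝ) / (D : ℝ) ^ 2 * b v)) (fun v => b v / R) v := by
          nlinarith
        have e5 := le_of_mul_le_mul_left e4 (by positivity)
        linarith
    apply absurd hc1
    push Not
    have hab : a u ≠ 0 ∨ b u ≠ 0 := by
      by_contra hh
      push Not at hh
      have : NN a b u = 0 := by
        unfold NN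
        rw [hh.1, hh.2]; simp
      linarith
    have havl := h D P R (a u) (b u) (by omega) hP hR hPR hab
    calc ∑ d ∈ range (D ^ 2),
        rs (inN S (fun v => P * (a v + (d : ℝ) / (D : ℝ) ^ 2 * b v)) (fun v => b v / R))
        ≤ ∑ d ∈ range (D ^ 2), rs (max |P * (a u + (d : ℝ) / (D : ℝ) ^ 2 * b u)| |b u / R|) := by
          apply Finset.sum_le_sum
          intro d hd
          have hd' : d < D ^ 2 := Finset.mem_range.1 hd
          apply rs_anti _ (hinf d hd')
          have e1 := hA d hd' u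
          have e2 : 0 < NN a b u := lt_of_lt_of_le hy hyu
          have e3 : 0 < 2 * (D : ℝ) ^ 2 := by positivity
          by_contra hneg
          push Not at hneg
          have : 2 * (D : ℝ) ^ 2 *
            NN (fun v => P * (a v + (d : ℝ) / (D : ℝ) ^ 2 * b v)) (fun v => b v / R) u ≤ 0 :=
            mul_nonpos_of_nonneg_of_nonpos e3.le hneg
          linarith
      _ ≤ (D : ℝ) ^ 2 * (16 * rs P * rs (max |a u| |b u|)) := havl
      _ ≤ (D : ℝ) ^ 2 * (16 * rs P * rs (inN S a b)) := by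
          have e1 : rs (max |a u| |b u|) ≤ rs (inN S a b) := rs_anti hy hyu
          have e2 : 0 ≤ rs P := by unfold rs; positivity
          gcongr

end Pool.Agent.W283.LW
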